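import Pool.Agent.Helper87.RAM.Defs
import Pool.Agent.Helper87.RAM.Alg

/-!
# The machine on germs (block E of MP_a35923_lc)
-/

open Filter Topology Polynomial Set

namespace Pool.Agent.Helper87.RAM

variable {K L : Subring 𝓖}

theorem update_germ {r : ℝ → ℕ → ℝ} (hr : ∀ i, gm (fun t => r t i) ∈ K) (i : ℕ) {F : ℝ → ℝ}
    (hF : gm F ∈ K) : ∀ j, gm (fun t => Function.update (r t) i (F t) j) ∈ K := by
  intro j
  by_cases hj : j = i
  · subst hj
    have : (fun t => Function.update (r t) j (F t) j) = F := by
      funext t
      simp
    rw [this]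
    exact hF
  · have : (fun t => Function.update (r t) i (F t) j) = fun t => r t j := by
      funext t
      simp [hj]
    rw [this]
    exact hr j

theorem run_germ (hK : IsHardy K)
    (hexp : ∀ F : ℝ → ℝ, gm F ∈ K → gm (fun t => Real.exp (F t)) ∈ K)
    (hroot : ∀ (F : ℝ → ℝ) (k : ℕ), gm F ∈ K → gm (fun t => |F t| ^ ((k + 1 : ℝ)⁻¹)) ∈ K)
    (M : Machine) (N : ℕ) (q : M.Q) (r : ℝ → ℕ → ℝ) (hr : ∀ i, gm (fun t => r t i) ∈ K) :
    (∀ᶠ t in atTop, M.run N q (r t) = none) ∨
    ∃ out : List (ℝ → ℂ),
      (∀ P ∈ out, gm (fun t => (P t).re) ∈ K ∧ gm (fun t => (P t).im) ∈ K) ∧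
      ∀ᶠ t in atTop, M.run N q (r t) = some (out.map fun P => P t) := by
  induction N generalizing q r with
  | zero => exact Or.inl (Eventually.of_forall fun t => rfl)
  | succ n ih =>
    cases hq : M.prog q with
    | const i c q' =>
      simp only [Machine.run, hq]
      exact ih q' _ (update_germ hr i (F := fun _ => c) (hK.const c))
    | add i j k q' =>
      simp only [Machine.run, hq]
      exact ih q' _ (update_germ hr i (F := fun t => r t j + r t k) (add_mem' (hr j) (hr k)))
    | sub i j k q' =>
      simp only [Machine.run, hq]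
      exact ih q' _ (update_germ hr i (F := fun t => r t j - r t k) (sub_mem' (hr j) (hr k)))
    | mul i j k q' =>
      simp only [Machine.run, hq]
      exact ih q' _ (update_germ hr i (F := fun t => r t j * r t k) (mul_mem' (hr j) (hr k)))
    | div i j k q' =>
      simp only [Machine.run, hq]
      exact ih q' _ (update_germ hr i (F := fun t => r t j / r t k) (hK.div_mem (hr j) (hr k)))
    | exp i j q' =>
      simp only [Machine.run, hq]
      exact ih q' _ (update_germ hr i (F := fun t => Real.exp (r t j)) (hexp _ (hr j)))
    | root i j k q' =>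
      simp only [Machine.run, hq]
      exact ih q' _ (update_germ hr i (F := fun t => |r t j| ^ ((k + 1 : ℝ)⁻¹))
        (hroot _ k (hr j)))
    | test i j q' q'' =>
      simp only [Machine.run, hq]
      rcases hK.cmp (hr i) (hr j) with h | h
      · rcases ih q' r hr with h1 | ⟨out, h1, h2⟩
        · left
          filter_upwards [h, h1] with t ht ht1
          rw [if_pos ht, ht1]
        · right
          refine ⟨out, h1, ?_⟩
          filter_upwards [h, h2] with t ht ht1
          rw [if_pos ht, ht1]
      · rcases ih q'' r hr with h1 | ⟨out, h1, h2⟩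
        · left
          filter_upwards [h, h1] with t ht ht1
          rw [if_neg (not_le.2 ht), ht1]
        · right
          refine ⟨out, h1, ?_⟩
          filter_upwards [h, h2] with t ht ht1
          rw [if_neg (not_le.2 ht), ht1]
    | halt out =>
      right
      refine ⟨out.map fun p t => (⟨r t p.1, r t p.2⟩ : ℂ), ?_, ?_⟩
      · intro P hP
        obtain ⟨p, -, rfl⟩ := List.mem_map.1 hP
        exact ⟨hr p.1, hr p.2⟩
      · refine Eventually.of_forall fun t => ?_
        simp only [Machine.run, hq, List.map_map, Function.comp_def]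

end Pool.Agent.Helper87.RAM
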