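import Pool.Agent.Helper87.RAM.Alg

/-!
# The base field and Zorn's lemma (block D of MP_a35923_lc)
-/

open Filter Topology Polynomial Set

namespace Pool.Agent.Helper87.RAM

variable {K L : Subring 𝓖}

/-- germs of real polynomials -/
noncomputable def polyGerm : ℝ[X] →+* 𝓖 where
  toFun p := gm (fun t => p.eval t)
  map_zero' := by
    simp only [eval_zero]
    rfl
  map_one' := by
    simp only [eval_one]
    rfl
  map_add' p q := by
    simp only [eval_add]
    rfl
  map_mul' p q := by
    simp only [eval_mul]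
    rfl

theorem polyGerm_apply (p : ℝ[X]) : polyGerm p = gm (fun t => p.eval t) := rfl

theorem eventually_eval_ne_zero {p : ℝ[X]} (hp : p ≠ 0) : ∀ᶠ t in atTop, p.eval t ≠ 0 := by
  rcases le_or_gt p.degree 0 with h | h
  · rw [eq_C_of_degree_le_zero h] at hp ⊢
    refine Eventually.of_forall fun t => ?_
    rw [eval_C]
    intro h0
    rw [h0, C_0] at hp
    exact hp rfl
  · have := p.abs_tendsto_atTop h
    filter_upwards [this.eventually_gt_atTop 0] with t ht h0
    rw [h0, abs_zero] at ht
    exact lt_irrefl _ ht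

theorem tendsto_logDeriv_poly {p : ℝ[X]} (hp : p ≠ 0) :
    Tendsto (fun t => t * (eval t (derivative p) / eval t p)) atTop (𝓝 (p.natDegree : ℝ)) := by
  by_cases h : p.natDegree = 0
  · have h1 : derivative p = 0 := derivative_of_natDegree_zero h
    simp [h, h1]
  · have hd : derivative p ≠ 0 := by
      intro h0
      exact h (derivative_eq_zero.1 h0)
    have hnd : (derivative p).natDegree = p.natDegree - 1 := natDegree_derivative p
    have hdeg : (X * derivative p).degree = p.degree := by
      have h1 : X * derivative p ≠ 0 := mul_ne_zero X_ne_zero hd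
      rw [degree_eq_natDegree h1, degree_eq_natDegree hp, natDegree_mul X_ne_zero hd, natDegree_X,
        hnd]
      congr 1
      omega
    have hlc : (X * derivative p).leadingCoeff = p.leadingCoeff * p.natDegree := by
      rw [leadingCoeff_mul, leadingCoeff_X, one_mul, leadingCoeff, hnd, coeff_derivative]
      have : p.natDegree - 1 + 1 = p.natDegree := by omega
      rw [this, leadingCoeff]
      congr 1
      have h2 : ((p.natDegree - 1 : ℕ) : ℝ) + 1 = ((p.natDegree - 1 + 1 : ℕ) : ℝ) := by
        push_cast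
        ring
      rw [h2, this]
    have key := div_tendsto_atTop_leadingCoeff_div_of_degree_eq (X * derivative p) p hdeg
    rw [hlc, mul_div_cancel_left₀ _ (leadingCoeff_ne_zero.2 hp)] at key
    refine key.congr fun t => ?_
    rw [eval_mul, eval_X, mul_div_assoc]

theorem base_good : ∃ K : Subring 𝓖, IsHardy K ∧ NoSlow K := by
  refine ⟨Frac polyGerm.range, ?_, ?_⟩
  · refine frac_isHardy ?_ ?_ ?_ ?_
    · rintro a ⟨p, rfl⟩ hp
      have h0 : p ≠ 0 := by
        rintro rfl
        exact hp (map_zero _)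
      exact isUnit_gm (eventually_eval_ne_zero h0)
    · intro c
      exact ⟨C c, by rw [polyGerm_apply]; simp only [eval_C]⟩
    · exact ⟨X, by rw [polyGerm_apply]; simp only [eval_X]⟩
    · rintro a ⟨p, rfl⟩
      exact ⟨fun t => p.eval t, fun t => (derivative p).eval t, rfl,
        le_frac _ ⟨derivative p, rfl⟩, Eventually.of_forall fun t => p.hasDerivAt t⟩
  · rintro F ⟨d, ⟨q, rfl⟩, hu, ⟨p, hp⟩⟩ hF0 hF
    have hq0 : q ≠ 0 := by
      rintro rfl
      rw [map_zero] at hu
      have := hu.ne_zero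
      exact this rfl
    have h1 : (fun t => p.eval t) =ᶠ[atTop] fun t => F t * q.eval t := gm_eq.1 hp
    have hq := eventually_eval_ne_zero hq0
    have hF1 : F =ᶠ[atTop] fun t => p.eval t / q.eval t := by
      filter_upwards [h1, hq] with t h2 h3
      rw [h2, mul_div_cancel_right₀ _ h3]
    have hp0 : p ≠ 0 := by
      rintro rfl
      obtain ⟨t, h2, h3⟩ := (hF0.and hF1).exists
      rw [h3] at h2
      simp at h2
    have hpe := eventually_eval_ne_zero hp0
    have hlog : (fun t => t * logDeriv F t) =ᶠ[atTop] fun t =>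
        t * (eval t (derivative p) / eval t p) - t * (eval t (derivative q) / eval t q) := by
      obtain ⟨T, hT⟩ := eventually_atTop.1 hF1
      filter_upwards [hq, hpe, eventually_gt_atTop T] with t h2 h3 h4
      have h5 : F =ᶠ[𝓝 t] fun t => p.eval t / q.eval t := by
        filter_upwards [Ioi_mem_nhds h4] with s hs
        exact hT s (le_of_lt hs)
      have h6 : logDeriv F t = logDeriv (fun t => p.eval t / q.eval t) t := by
        rw [logDeriv_apply, logDeriv_apply, h5.deriv_eq, h5.eq_of_nhds]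
      have h7 : HasDerivAt (fun t => p.eval t / q.eval t)
          ((eval t (derivative p) * eval t q - eval t p * eval t (derivative q)) / (eval t q) ^ 2)
          t := (p.hasDerivAt t).div (q.hasDerivAt t) h2
      rw [h6, logDeriv_apply, h7.deriv]
      field_simp
    have h8 := ((tendsto_logDeriv_poly hp0).sub (tendsto_logDeriv_poly hq0)).congr' hlog.symm
    have h9 : (p.natDegree : ℝ) - (q.natDegree : ℝ) = 0 := tendsto_nhds_unique h8 hF
    have h10 : p.natDegree = q.natDegree := by
      have : (p.natDegree : ℝ) = (q.natDegree : ℝ) := by linarith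
      exact_mod_cast this
    have hdeg : p.degree = q.degree := by
      rw [degree_eq_natDegree hp0, degree_eq_natDegree hq0, h10]
    refine ⟨p.leadingCoeff / q.leadingCoeff, div_ne_zero (leadingCoeff_ne_zero.2 hp0)
      (leadingCoeff_ne_zero.2 hq0), ?_⟩
    exact (div_tendsto_atTop_leadingCoeff_div_of_degree_eq p q hdeg).congr' hF1.symm

theorem exists_max_good : ∃ K : Subring 𝓖, IsHardy K ∧ NoSlow K ∧
    ∀ L : Subring 𝓖, IsHardy L → NoSlow L → K ≤ L → L ≤ K := by
  obtain ⟨K₀, h1, h2⟩ := base_good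
  have hz : ∀ c ⊆ {K : Subring 𝓖 | IsHardy K ∧ NoSlow K}, IsChain (· ≤ ·) c → ∀ y ∈ c,
      ∃ ub ∈ {K : Subring 𝓖 | IsHardy K ∧ NoSlow K}, ∀ z ∈ c, z ≤ ub := by
    intro c hc hchain y hy
    have hmem : ∀ {x : 𝓖}, x ∈ sSup c ↔ ∃ K ∈ c, x ∈ K := by
      intro x
      exact Subring.mem_sSup_of_directedOn ⟨y, hy⟩ hchain.directedOn
    have hle : ∀ K ∈ c, K ≤ sSup c := fun K hK => le_sSup hK
    refine ⟨sSup c, ⟨⟨?_, ?_, ?_, ?_⟩, ?_⟩, hle⟩
    · intro a
      exact hle y hy ((hc hy).1.const a)
    · exact hle y hy (hc hy).1.id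
    · intro f hf hf0
      obtain ⟨K, hK, hfK⟩ := hmem.1 hf
      obtain ⟨g, hg, hfg⟩ := (hc hK).1.inv f hfK hf0
      exact ⟨g, hle K hK hg, hfg⟩
    · intro f hf
      obtain ⟨K, hK, hfK⟩ := hmem.1 hf
      exact ((hc hK).1.der f hfK).mono (hle K hK)
    · intro F hF
      obtain ⟨K, hK, hfK⟩ := hmem.1 hF
      exact (hc hK).2 F hfK
  obtain ⟨K, -, hK⟩ := zorn_le_nonempty₀ {K : Subring 𝓖 | IsHardy K ∧ NoSlow K} hz K₀ ⟨h1, h2⟩
  exact ⟨K, hK.1.1, hK.1.2, fun L h3 h4 h5 => hK.2 ⟨h3, h4⟩ h5⟩

end Pool.Agent.Helper87.RAM
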